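import Pool.Agent.R398.AP.Lifts

/-!
# Spherical cusp forms on `PGL_n`: bounds towards the Ramanujan conjecture at almost all primes, uniformly in the form

Let `n ≥ 2` and let `φ` be a spherical cusp form on `PGL_n` over `ℚ` with Satake parameters `α_{i,p}` and Langlands
parameters `μ_i`; recall `θ_{φ,p} = max_i |log_p |α_{i,p}||`, and let `C(φ) = ∏_{i,j} (1 + |μ_i - μ_j|)` be the analytic
conductor of `L(s, π × π~)`. We bound the number of the primes at which the Ramanujan conjecture fails by a given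
amount. For every `ε > 0` there is a constant `A`, depending only on `n` and `ε`, such that for **every** `φ`, every
real `x` and every `X ≥ 1`

  `#{p ≤ X : θ_{φ,p} ≥ x} ≤ A (1 + log C(φ)) X^{⌊n/2⌋ (1 - 2x) + ε}`.

So outside a set of primes with a power saving

  `θ_{φ,p} ≤ 1/2 - 1/(2 ⌊n/2⌋) + δ`,

which is `≤ δ` for `n ≤ 3`, `1/4 + δ` for `n = 5`, `1/3 + δ` for `n = 6, 7`; the best bounds which are known at every
prime are `1/2 - 1/(n² + 1)` for `n ≥ 5`, i.e. `0.461` for `n = 5`, and `7/64`, `5/14`, `9/22` for `n = 2, 3, 4`. For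
`n = 4` and `n = 2` we prove more: the number of exceptional primes is

  `≤ A (1 + log C(φ)) X^{1 - 2x + ε}` (`n = 4`),  `≤ A (1 + log C(φ)) X^{1 - 8x + ε}` (`n = 2`).

So for `n ≤ 4` and every `δ > 0` all but `O(X^{1 - 2δ + ε})` primes `p ≤ X` satisfy `θ_{φ,p} < δ`. Moreover, the
exceptional primes are few already for very small `X`, as only the logarithm of the conductor enters: if
`κ = 1 - ⌊n/2⌋ (1 - 2x) > 0` there is a prime

  `p ≤ A (1 + log C(φ))^{1/κ + ε}` with `θ_{φ,p} < x`,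

and for `n = 4` (`n = 2`) the same holds with `κ = 2x` (`κ = 8x`), for every `x > 0`. (The least tempered prime is
known to be at most `A C(φ)^{1+ε}` for `n ≤ 3` only, see `LeastSmallTrace`; for `n ≥ 4` it is not even known that there is
one.)

The hypotheses list what is used of `φ`, all of it is known for every spherical cusp form: `SphericalCuspForm` (see
`LeastSmallTrace`) and the bounds `|α_{i,p}| < p^{1/2}`, `|Re μ_i| < 1/2` of Jacquet and Shalika. For `n = 4` the same is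
used for the exterior square `Λ² π`, which by Kim is an isobaric sum of unitary cuspidal representations, unramified
everywhere; the order `r ≤ 36` of the pole of `L(s, Λ² π × Λ² π~)` is the sum of the squares of the multiplicities. For
`n = 2` it is used for `Sym⁴ π`, which is cuspidal by Kim and Shahidi. `UnramifiedIsobaric r` is the analogue of
`SphericalCuspForm` for such sums, with a pole of order `r`.

The proof. Let `p^x ≥ 4` and `θ_{φ,p} ≥ x`. As `π_p` is unitary, the elementary symmetric functions of the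
`α_{i,p}` satisfy `|e_k| = |e_{n-k}|`; so by Newton's identities one of the power sums with `k ≤ n/2` satisfies
`|α_{1,p}^k + ... + α_{n,p}^k| > (p^x / 4)^k`. Therefore the number of the exceptional primes is bounded by
`X^{⌊n/2⌋ (1 + ε - 2x)}` times `log L(1 + ε, π × π~)`. The functional equation, the bounds of Jacquet and Shalika to the
right of `5/2` and the principle of Phragmén and Lindelöf give `log L(1 + ε, π × π~) ≤ A + 3 log C(φ)`.
-/

set_option autoImplicit false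

namespace Pool.Agent.Results.MP_fa98d2_nt.AlmostAllPrimes

open Pool.Agent.TH949.RES (SphericalCuspForm)
open Pool.Agent.R398.AP (UnramifiedIsobaric Exc cond ext extA sym symA of_spherical count_general count_four count_two
  least_of_count log_cond_nonneg)

/-- the bounds of Jacquet and Shalika -/
def JacquetShalika {n : ℕ} (α : Nat.Primes → Fin n → ℂ) (μ : Fin n → ℂ) : Prop :=
  (∀ (p : Nat.Primes) i, ‖α p i‖ < ((p : ℕ) : ℝ) ^ (1 / 2 : ℝ)) ∧ ∀ i, |(μ i).re| < 1 / 2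

/-- `n = 4`: the exterior square is an isobaric sum, unramified everywhere (Kim) -/
def ExteriorSquare (α : Nat.Primes → Fin 4 → ℂ) (μ : Fin 4 → ℂ) : Prop :=
  ∃ r ≤ 36, UnramifiedIsobaric r (ext α) (extA μ)

/-- `n = 2`: the symmetric fourth power is cuspidal, unramified everywhere (Kim, Shahidi) -/
def SymmetricFourth (α : Nat.Primes → Fin 2 → ℂ) (μ : Fin 2 → ℂ) : Prop := UnramifiedIsobaric 1 (sym α) (symA μ)

theorem first {n : ℕ} (hn : 2 ≤ n) {ε : ℝ} (hε : 0 < ε) :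
    ∃ A : ℝ, 0 < A ∧ ∀ (α : Nat.Primes → Fin n → ℂ) (μ : Fin n → ℂ), SphericalCuspForm α μ → JacquetShalika α μ →
      ∀ x X : ℝ, 1 ≤ X → ((Exc α x X).ncard : ℝ) ≤
        A * (1 + Real.log (cond μ)) * X ^ (((n / 2 : ℕ) : ℝ) * (1 - 2 * x) + ε) := by
  have hm : (1 : ℝ) ≤ ((n / 2 : ℕ) : ℝ) := by
    have : 1 ≤ n / 2 := by omega
    exact_mod_cast this
  have hm0 : (0 : ℝ) < ((n / 2 : ℕ) : ℝ) := by linarith
  obtain ⟨A, hA0, hA⟩ := count_general (r := 1) hn (ε := min (ε / ((n / 2 : ℕ) : ℝ)) 1) (by positivity) (min_le_right _ _)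
  refine ⟨A + 1, by linarith, fun α μ h hJ x X hX => ?_⟩
  refine (hA α μ (of_spherical h hJ.1 hJ.2) x X hX).trans ?_
  have hc := log_cond_nonneg μ
  refine mul_le_mul (mul_le_mul_of_nonneg_right (by linarith) (by linarith))
    (Real.rpow_le_rpow_of_exponent_le hX ?_) (Real.rpow_nonneg (by linarith) _) (by positivity)
  have h1 : ((n / 2 : ℕ) : ℝ) * min (ε / ((n / 2 : ℕ) : ℝ)) 1 ≤ ε := by
    calc _ ≤ ((n / 2 : ℕ) : ℝ) * (ε / ((n / 2 : ℕ) : ℝ)) := mul_le_mul_of_nonneg_left (min_le_left _ _) hm0.le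
      _ = ε := by field_simp
  linarith

theorem second {ε : ℝ} (hε : 0 < ε) :
    ∃ A : ℝ, 0 < A ∧ ∀ (α : Nat.Primes → Fin 4 → ℂ) (μ : Fin 4 → ℂ), SphericalCuspForm α μ → JacquetShalika α μ →
      ExteriorSquare α μ → ∀ x X : ℝ, 1 ≤ X →
        ((Exc α x X).ncard : ℝ) ≤ A * (1 + Real.log (cond μ)) * X ^ (1 - 2 * x + ε) := by
  choose A hA0 hA using fun r : ℕ => count_four r (ε := min ε 1) (by positivity) (min_le_right _ _)
  have hs : 0 ≤ ∑ r ∈ Finset.range 37, A r := Finset.sum_nonneg fun r _ => hA0 r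
  refine ⟨∑ r ∈ Finset.range 37, A r + 1, by linarith, fun α μ h hJ hE x X hX => ?_⟩
  obtain ⟨r, hr, hE⟩ := hE
  refine (hA r α μ (of_spherical h hJ.1 hJ.2) hE x X hX).trans ?_
  have hc := log_cond_nonneg μ
  have h1 : A r ≤ ∑ r ∈ Finset.range 37, A r :=
    Finset.single_le_sum (f := A) (fun r _ => hA0 r) (Finset.mem_range.2 (by omega))
  refine mul_le_mul (mul_le_mul_of_nonneg_right (by linarith) (by linarith))
    (Real.rpow_le_rpow_of_exponent_le hX ?_) (Real.rpow_nonneg (by linarith) _) (by positivity)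
  linarith [min_le_left ε 1]

theorem third {ε : ℝ} (hε : 0 < ε) :
    ∃ A : ℝ, 0 < A ∧ ∀ (α : Nat.Primes → Fin 2 → ℂ) (μ : Fin 2 → ℂ), SphericalCuspForm α μ → JacquetShalika α μ →
      SymmetricFourth α μ → ∀ x X : ℝ, 1 ≤ X →
        ((Exc α x X).ncard : ℝ) ≤ A * (1 + Real.log (cond μ)) * X ^ (1 - 8 * x + ε) := by
  obtain ⟨A, hA0, hA⟩ := count_two 1 (ε := min ε 1) (by positivity) (min_le_right _ _)
  refine ⟨A + 1, by linarith, fun α μ h hJ hE x X hX => ?_⟩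
  refine (hA α μ (of_spherical h hJ.1 hJ.2) hE x X hX).trans ?_
  have hc := log_cond_nonneg μ
  refine mul_le_mul (mul_le_mul_of_nonneg_right (by linarith) (by linarith))
    (Real.rpow_le_rpow_of_exponent_le hX ?_) (Real.rpow_nonneg (by linarith) _) (by positivity)
  linarith [min_le_left ε 1]

/-- **Bounds towards the Ramanujan conjecture at almost all primes, uniformly in the spherical cusp form.** -/
theorem result {ε : ℝ} (hε : 0 < ε) :
    -- the number of exceptional primes, and the least prime which is not exceptional, for every `n`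
    (∀ n : ℕ, 2 ≤ n → ∃ A : ℝ, 0 < A ∧ ∀ (α : Nat.Primes → Fin n → ℂ) (μ : Fin n → ℂ),
      SphericalCuspForm α μ → JacquetShalika α μ → ∀ x X : ℝ, 1 ≤ X →
        (({p : Nat.Primes | ((p : ℕ) : ℝ) ≤ X ∧ ∃ i, x ≤ |Real.logb ((p : ℕ) : ℝ) ‖α p i‖|}.ncard : ℕ) : ℝ) ≤
          A * (1 + Real.log (cond μ)) * X ^ (((n / 2 : ℕ) : ℝ) * (1 - 2 * x) + ε)) ∧
    (∀ n : ℕ, 2 ≤ n → ∀ x : ℝ, x ≤ 1 / 2 → ∀ κ : ℝ, κ = 1 - ((n / 2 : ℕ) : ℝ) * (1 - 2 * x) → 0 < κ →
      ∃ A : ℝ, 0 < A ∧ ∀ (α : Nat.Primes → Fin n → ℂ) (μ : Fin n → ℂ), SphericalCuspForm α μ → JacquetShalika α μ →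
        ∃ p : Nat.Primes, ((p : ℕ) : ℝ) ≤ A * (1 + Real.log (cond μ)) ^ (1 / κ + ε) ∧
          ∀ i, |Real.logb ((p : ℕ) : ℝ) ‖α p i‖| < x) ∧
    -- `n = 4`
    (∃ A : ℝ, 0 < A ∧ ∀ (α : Nat.Primes → Fin 4 → ℂ) (μ : Fin 4 → ℂ),
      SphericalCuspForm α μ → JacquetShalika α μ → ExteriorSquare α μ → ∀ x X : ℝ, 1 ≤ X →
        (({p : Nat.Primes | ((p : ℕ) : ℝ) ≤ X ∧ ∃ i, x ≤ |Real.logb ((p : ℕ) : ℝ) ‖α p i‖|}.ncard : ℕ) : ℝ) ≤
          A * (1 + Real.log (cond μ)) * X ^ (1 - 2 * x + ε)) ∧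
    (∀ x : ℝ, 0 < x → x ≤ 1 / 2 → ∃ A : ℝ, 0 < A ∧ ∀ (α : Nat.Primes → Fin 4 → ℂ) (μ : Fin 4 → ℂ),
      SphericalCuspForm α μ → JacquetShalika α μ → ExteriorSquare α μ →
        ∃ p : Nat.Primes, ((p : ℕ) : ℝ) ≤ A * (1 + Real.log (cond μ)) ^ (1 / (2 * x) + ε) ∧
          ∀ i, |Real.logb ((p : ℕ) : ℝ) ‖α p i‖| < x) ∧
    -- `n = 2`
    (∃ A : ℝ, 0 < A ∧ ∀ (α : Nat.Primes → Fin 2 → ℂ) (μ : Fin 2 → ℂ),
      SphericalCuspForm α μ → JacquetShalika α μ → SymmetricFourth α μ → ∀ x X : ℝ, 1 ≤ X →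
        (({p : Nat.Primes | ((p : ℕ) : ℝ) ≤ X ∧ ∃ i, x ≤ |Real.logb ((p : ℕ) : ℝ) ‖α p i‖|}.ncard : ℕ) : ℝ) ≤
          A * (1 + Real.log (cond μ)) * X ^ (1 - 8 * x + ε)) ∧
    (∀ x : ℝ, 0 < x → x ≤ 1 / 8 → ∃ A : ℝ, 0 < A ∧ ∀ (α : Nat.Primes → Fin 2 → ℂ) (μ : Fin 2 → ℂ),
      SphericalCuspForm α μ → JacquetShalika α μ → SymmetricFourth α μ →
        ∃ p : Nat.Primes, ((p : ℕ) : ℝ) ≤ A * (1 + Real.log (cond μ)) ^ (1 / (8 * x) + ε) ∧
          ∀ i, |Real.logb ((p : ℕ) : ℝ) ‖α p i‖| < x) := by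
  refine ⟨fun n hn => first hn hε, ?_, second hε, ?_, third hε, ?_⟩
  · intro n hn x hx κ hκ hκ0
    have hm0 : (0 : ℝ) ≤ ((n / 2 : ℕ) : ℝ) := Nat.cast_nonneg _
    obtain ⟨A, hA0, hA⟩ := least_of_count (n := n) hκ0 (by nlinarith) hε
      (fun α μ => SphericalCuspForm α μ ∧ JacquetShalika α μ) x (fun η hη => by
        obtain ⟨A, hA0, hA⟩ := first hn hη
        refine ⟨A, hA0.le, fun α μ h X hX => ?_⟩
        have := hA α μ h.1 h.2 x X hX
        rwa [show ((n / 2 : ℕ) : ℝ) * (1 - 2 * x) + η = 1 - κ + η by rw [hκ]; ring] at this)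
    exact ⟨A, hA0, fun α μ h h' => hA α μ ⟨h, h'⟩⟩
  · intro x hx0 hx
    obtain ⟨A, hA0, hA⟩ := least_of_count (n := 4) (κ := 2 * x) (by linarith) (by linarith) hε
      (fun α μ => SphericalCuspForm α μ ∧ JacquetShalika α μ ∧ ExteriorSquare α μ) x (fun η hη => by
        obtain ⟨A, hA0, hA⟩ := second hη
        exact ⟨A, hA0.le, fun α μ h X hX => hA α μ h.1 h.2.1 h.2.2 x X hX⟩)
    exact ⟨A, hA0, fun α μ h h' h'' => hA α μ ⟨h, h', h''⟩⟩
  · intro x hx0 hx
    obtain ⟨A, hA0, hA⟩ := least_of_count (n := 2) (κ := 8 * x) (by linarith) (by linarith) hε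
      (fun α μ => SphericalCuspForm α μ ∧ JacquetShalika α μ ∧ SymmetricFourth α μ) x (fun η hη => by
        obtain ⟨A, hA0, hA⟩ := third hη
        exact ⟨A, hA0.le, fun α μ h X hX => hA α μ h.1 h.2.1 h.2.2 x X hX⟩)
    exact ⟨A, hA0, fun α μ h h' h'' => hA α μ ⟨h, h', h''⟩⟩

end Pool.Agent.Results.MP_fa98d2_nt.AlmostAllPrimes
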