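import Pool.Agent.R314.SX.SplB

/-!
# Spherical cusp forms on `PGL_n`: among the primes which split completely in an abelian number field, the violations
of the Ramanujan conjecture are bounded by the small eigenvalues, at every scale

Let `n ≥ 2`, let `φ` be a spherical cusp form on `PGL_n` over `ℚ`, with Satake parameters `α_{i,p}`, Langlands
parameters `μ_i` at the real place and Hecke eigenvalues `λ(p) = ∑_i α_{i,p}`. Let `X` be a group of Dirichlet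
characters modulo `q`, and let `K` be the abelian number field which belongs to `X`: a prime `p` not dividing `q` splits
completely in `K` iff `χ(p) = 1` for all `χ ∈ X` (for the group of all characters: iff `p ≡ 1 mod q`). Let `c ≥ 1/2` be
such that no `L(s, χ)`, `χ ∈ X`, has a real zero `s` with `c < s < 1`; for the divisors `q` of `24` one can take
`c = 1/2` (this is proved here). We write `p ∈ Spl` for the primes which split completely in `K`. We show, for every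
`ε > 0` and **all** large `Y`:

* `∑_{p ∈ Spl, p ≤ Y} max(0, |λ(p)|² - 1) ≤ Y^ε (∑_{p ∈ Spl, p ≤ Y^{1+ε}} max(0, 1 - |λ(p)|²) + Y^c)`,
  and so `(B² - 1) #{p ∈ Spl : p ≤ Y, |λ(p)| ≥ B} ≤ Y^ε (#{p ∈ Spl : p ≤ Y^{1+ε}, |λ(p)| < 1} + Y^c)`; for `B > n` the
  left hand side counts violations of the Ramanujan conjecture.
* For `n ≤ 3` the *defects* `Δ_p = ∑_i (|α_{i,p}| - 1)²` (`Δ_p = 0` iff `π_p` is tempered) satisfy
  `∑_{p ∈ Spl, p ≤ Y} Δ_p ≤ Y^ε (#{p ∈ Spl : p ≤ Y^{1+ε}, π_p tempered} + Y^c)`.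
* If the form violates the Ramanujan conjecture by more than `c / 2` at some place, i.e. if
  `c < 2 |log_p |α_{i,p}||` for some `p` and `i`, or `c < 2 |Re μ_i|` for some `i`, then the terms `Y^c` can be left out:
  `∑_{p ∈ Spl, p ≤ Y} max(0, |λ(p)|² - 1) ≤ Y^ε #{p ∈ Spl : p ≤ Y^{1+ε}, |λ(p)| < 1}`, and for `n ≤ 3`
  `∑_{p ∈ Spl, p ≤ Y} Δ_p ≤ Y^ε #{p ∈ Spl : p ≤ Y^{1+ε}, π_p tempered}`.

For `K = ℚ` (also for other groups) this is in `TemperedMajority` (`MP_8410ab_nt`) and `ExcessEveryScale`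
(`MP_08cfa9_nt`). Over the primes which split completely in `K` these results say nothing: the large and the small
eigenvalues which they compare might be at primes of different splitting types. `SplitPrimesEveryScale` bounds the number
of the small eigenvalues from below by powers of `Y`, but does not compare it with the large ones.

The proof: `log ∏_{χ ∈ X} L(s, (π ⊗ χ) × π~) / L(s, χ) = ∑ |X| (|λ(p)|² - 1) p^{-s} + ...` over `p ∈ Spl`. Let `b` be the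
maximum of `c` and of the least upper bound of the real parts of the zeros and poles of this function. By the explicit
formula with a Gaussian weight at a real point slightly to the right of `b`, the positive and the negative coefficients
near `Y` compensate each other up to `Y^{b + ε}`; if `b > c`, then to the left of `b` the formula shows that the negative
ones contribute at least `Y^{b - ε}`, as there are no real poles to the right of `c`.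
-/

set_option autoImplicit false

namespace Pool.Agent.Results.MP_fa98d2_nt.ExcessSplitPrimes

open Pool.Agent.Y243.SP DirichletCharacter Filter

/-- the defect of a nontempered unitary parameter of `GL_2` or `GL_3` -/
theorem defect23 {n : ℕ} (hn : 2 ≤ n) (hn3 : n ≤ 3) {a : Fin n → ℂ} (h0 : ∀ i, a i ≠ 0)
    (hU : ∃ τ : Equiv.Perm (Fin n), ∀ i, a (τ i) = ((starRingEnd ℂ) (a i))⁻¹) (h : ¬ ∀ i, ‖a i‖ = 1) :
    ∑ i, (‖a i‖ - 1) ^ 2 ≤ ‖∑ i, a i‖ ^ 2 - 1 := by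
  obtain ⟨τ, hτ⟩ := hU
  rcases (by omega : n = 2 ∨ n = 3) with rfl | rfl
  · push Not at h
    obtain ⟨i, hi⟩ := h
    have hr : 0 < ‖a i‖ := norm_pos_iff.2 (h0 i)
    have h1 : τ i ≠ i := by
      intro h1
      have h2 := hτ i
      rw [h1] at h2
      have h3 := congrArg norm h2
      rw [norm_inv, RCLike.norm_conj] at h3
      have h4 : ‖a i‖ * ‖a i‖ = 1 := by
        nth_rewrite 1 [h3]
        exact inv_mul_cancel₀ hr.ne'
      apply hi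
      nlinarith
    have h2 : ‖a (τ i)‖ = ‖a i‖⁻¹ := by rw [hτ i, norm_inv, RCLike.norm_conj]
    have huniv : ∀ f : Fin 2 → ℝ, ∑ l, f l = f i + f (τ i) := by
      intro f
      have : ∀ i j : Fin 2, j ≠ i → ∀ f : Fin 2 → ℝ, ∑ l, f l = f i + f j := by
        intro i j hij f
        fin_cases i <;> fin_cases j <;> simp_all [Fin.sum_univ_two, add_comm]
      exact this i (τ i) h1 f
    have hunivc : ∀ f : Fin 2 → ℂ, ∑ l, f l = f i + f (τ i) := by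
      intro f
      have : ∀ i j : Fin 2, j ≠ i → ∀ f : Fin 2 → ℂ, ∑ l, f l = f i + f j := by
        intro i j hij f
        fin_cases i <;> fin_cases j <;> simp_all [Fin.sum_univ_two, add_comm]
      exact this i (τ i) h1 f
    rw [huniv, hunivc, h2]
    set r : ℝ := ‖a i‖ with hrd
    have e1 : a i + a (τ i) = ((1 + (r⁻¹) ^ 2 : ℝ) : ℂ) * a i := by
      rw [hτ i]
      have h5 : (starRingEnd ℂ) (a i) * a i = ((r ^ 2 : ℝ) : ℂ) := by
        rw [mul_comm, Complex.mul_conj, Complex.normSq_eq_norm_sq, ← hrd]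
      have hc0 : (starRingEnd ℂ) (a i) ≠ 0 := by
        rw [Ne, map_eq_zero]
        exact h0 i
      have h6 : ((starRingEnd ℂ) (a i))⁻¹ = ((r ^ 2 : ℝ) : ℂ)⁻¹ * a i := by
        rw [← h5]
        have := h0 i
        field_simp
      rw [h6]
      have hrc : (r : ℂ) ≠ 0 := by exact_mod_cast hr.ne'
      push_cast
      field_simp
    have e2 : ‖a i + a (τ i)‖ = r + r⁻¹ := by
      rw [e1, norm_mul, Complex.norm_real, Real.norm_of_nonneg (by positivity), ← hrd]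
      field_simp
    rw [e2]
    have h7 : r * r⁻¹ = 1 := mul_inv_cancel₀ hr.ne'
    have h8 : 0 < r⁻¹ := by positivity
    nlinarith [sq_nonneg (r - r⁻¹)]
  · refine Pool.Agent.Y816.GL3T.defect_le ⟨h0, ?_⟩ h
    have h2 : (fun i => ((starRingEnd ℂ) (a i))⁻¹) = a ∘ τ := by
      funext i
      rw [Function.comp, hτ]
    rw [h2, ← Multiset.map_map, Multiset.map_univ_val_equiv]

open scoped Classical in
/-- **The violations among the split primes are bounded by the small eigenvalues, at every scale.** -/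
theorem result {n : ℕ} (hn : 2 ≤ n) (α : Nat.Primes → Fin n → ℂ) (μ : Fin n → ℂ) (h : TwistedCuspForm α μ)
    (q : ℕ) [NeZero q] (X : Subgroup (DirichletCharacter ℂ q)) {c : ℝ} (hc2 : 1 / 2 ≤ c)
    (hz : ¬ q ∣ 24 → ∀ χ ∈ X, ∀ σ : ℝ, c < σ → σ < 1 → LFunction χ σ ≠ 0) {ε : ℝ} (hε : 0 < ε) :
    (∀ᶠ Y : ℝ in atTop, (∑' p : Nat.Primes, if ((p : ℕ) : ℝ) ≤ Y ∧ ∀ χ ∈ X, χ ((p : ℕ) : ZMod q) = 1 then
        max 0 (‖∑ i, α p i‖ ^ 2 - 1) else 0) ≤
      Y ^ ε * ((∑' p : Nat.Primes, if ((p : ℕ) : ℝ) ≤ Y ^ (1 + ε) ∧ ∀ χ ∈ X, χ ((p : ℕ) : ZMod q) = 1 then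
        max 0 (1 - ‖∑ i, α p i‖ ^ 2) else 0) + Y ^ c)) ∧
    (∀ B : ℝ, 1 ≤ B → ∀ᶠ Y : ℝ in atTop, (B ^ 2 - 1) * (({p : Nat.Primes | ((p : ℕ) : ℝ) ≤ Y ∧
        (∀ χ ∈ X, χ ((p : ℕ) : ZMod q) = 1) ∧ B ≤ ‖∑ i, α p i‖}.ncard : ℕ) : ℝ) ≤
      Y ^ ε * ((({p : Nat.Primes | ((p : ℕ) : ℝ) ≤ Y ^ (1 + ε) ∧
        (∀ χ ∈ X, χ ((p : ℕ) : ZMod q) = 1) ∧ ‖∑ i, α p i‖ < 1}.ncard : ℕ) : ℝ) + Y ^ c)) ∧
    (n ≤ 3 → ∀ᶠ Y : ℝ in atTop, (∑' p : Nat.Primes, if ((p : ℕ) : ℝ) ≤ Y ∧ ∀ χ ∈ X, χ ((p : ℕ) : ZMod q) = 1 then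
        ∑ i, (‖α p i‖ - 1) ^ 2 else 0) ≤
      Y ^ ε * ((({p : Nat.Primes | ((p : ℕ) : ℝ) ≤ Y ^ (1 + ε) ∧
        (∀ χ ∈ X, χ ((p : ℕ) : ZMod q) = 1) ∧ ∀ i, ‖α p i‖ = 1}.ncard : ℕ) : ℝ) + Y ^ c)) ∧
    (((∃ (p : Nat.Primes) (i : Fin n), c < 2 * |Real.logb ((p : ℕ) : ℝ) ‖α p i‖|) ∨ (∃ i, c < 2 * |(μ i).re|)) →
      (∀ᶠ Y : ℝ in atTop, (∑' p : Nat.Primes, if ((p : ℕ) : ℝ) ≤ Y ∧ ∀ χ ∈ X, χ ((p : ℕ) : ZMod q) = 1 then
          max 0 (‖∑ i, α p i‖ ^ 2 - 1) else 0) ≤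
        Y ^ ε * (({p : Nat.Primes | ((p : ℕ) : ℝ) ≤ Y ^ (1 + ε) ∧
          (∀ χ ∈ X, χ ((p : ℕ) : ZMod q) = 1) ∧ ‖∑ i, α p i‖ < 1}.ncard : ℕ) : ℝ)) ∧
      (n ≤ 3 → ∀ᶠ Y : ℝ in atTop, (∑' p : Nat.Primes, if ((p : ℕ) : ℝ) ≤ Y ∧ ∀ χ ∈ X, χ ((p : ℕ) : ZMod q) = 1 then
          ∑ i, (‖α p i‖ - 1) ^ 2 else 0) ≤
        Y ^ ε * (({p : Nat.Primes | ((p : ℕ) : ℝ) ≤ Y ^ (1 + ε) ∧
          (∀ χ ∈ X, χ ((p : ℕ) : ZMod q) = 1) ∧ ∀ i, ‖α p i‖ = 1}.ncard : ℕ) : ℝ))) := by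
  have hz' : ∀ χ ∈ X, ∀ σ : ℝ, max c (1 / 2) < σ → σ < 1 → LFunction χ σ ≠ 0 := by
    intro χ hχ σ h1 h2
    by_cases hq : q ∣ 24
    · exact ne_of_dvd hq χ (by linarith [(le_max_right c (1 / 2)).trans_lt h1]) h2
    · exact hz hq χ hχ σ ((le_max_left _ _).trans_lt h1) h2
  have hfin : ∀ Y : ℝ, {p : Nat.Primes | ((p : ℕ) : ℝ) ≤ Y}.Finite := fun Y =>
    (Pool.Agent.TH949.RES.primes_finite ⌊Y⌋₊).subset fun p hp => Nat.le_floor hp
  set Spl : Nat.Primes → Prop := fun p => ∀ χ ∈ X, χ ((p : ℕ) : ZMod q) = 1 with hSpl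
  have hsm : ∀ (f : Nat.Primes → ℝ) (Y : ℝ), Summable fun p : Nat.Primes =>
      if ((p : ℕ) : ℝ) ≤ Y ∧ Spl p then f p else 0 := by
    intro f Y
    refine summable_of_hasFiniteSupport ((hfin Y).subset fun p hp => ?_)
    by_contra h7
    exact hp (if_neg fun h8 => h7 h8.1)
  have hcf : ∀ (Q : Nat.Primes → Prop) (Y : ℝ), {p : Nat.Primes | ((p : ℕ) : ℝ) ≤ Y ∧ Spl p ∧ Q p}.Finite :=
    fun Q Y => (hfin Y).subset fun p hp => hp.1
  -- sums and counts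
  have hcount : ∀ (Q : Nat.Primes → Prop) (f : Nat.Primes → ℝ) (Y : ℝ), (∀ p, Q p → f p ≤ 1) → (∀ p, ¬ Q p → f p ≤ 0) →
      (∑' p : Nat.Primes, if ((p : ℕ) : ℝ) ≤ Y ∧ Spl p then f p else 0) ≤
        (({p : Nat.Primes | ((p : ℕ) : ℝ) ≤ Y ∧ Spl p ∧ Q p}.ncard : ℕ) : ℝ) := by
    intro Q f Y h1 h2
    have hs : ∑' p : Nat.Primes, (if p ∈ (hcf Q Y).toFinset then (1 : ℝ) else 0) =
        (({p : Nat.Primes | ((p : ℕ) : ℝ) ≤ Y ∧ Spl p ∧ Q p}.ncard : ℕ) : ℝ) := by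
      rw [tsum_eq_sum (s := (hcf Q Y).toFinset) (fun p hp => if_neg hp), Finset.sum_congr rfl (fun p hp => if_pos hp),
        Finset.sum_const, Set.ncard_eq_toFinset_card _ (hcf Q Y)]
      simp
    rw [← hs]
    refine Summable.tsum_le_tsum (fun p => ?_) (hsm f Y) ?_
    · by_cases h3 : ((p : ℕ) : ℝ) ≤ Y ∧ Spl p
      · by_cases h4 : Q p
        · rw [if_pos h3, if_pos ((hcf Q Y).mem_toFinset.2 ⟨h3.1, h3.2, h4⟩)]
          exact h1 p h4
        · rw [if_pos h3, if_neg (fun h5 => h4 ((hcf Q Y).mem_toFinset.1 h5).2.2)]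
          exact h2 p h4
      · rw [if_neg h3]
        split_ifs
        · exact zero_le_one
        · exact le_rfl
    · refine summable_of_hasFiniteSupport ((Finset.finite_toSet (hcf Q Y).toFinset).subset fun p hp => ?_)
      by_contra h7
      exact hp (if_neg fun h8 => h7 (Finset.mem_coe.2 h8))
  have hcount2 : ∀ (Q : Nat.Primes → Prop) (f : Nat.Primes → ℝ) (C Y : ℝ), (∀ p, Q p → C ≤ f p) → (∀ p, 0 ≤ f p) →
      C * (({p : Nat.Primes | ((p : ℕ) : ℝ) ≤ Y ∧ Spl p ∧ Q p}.ncard : ℕ) : ℝ) ≤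
      (∑' p : Nat.Primes, if ((p : ℕ) : ℝ) ≤ Y ∧ Spl p then f p else 0) := by
    intro Q f C Y h1 h2
    have hs : ∑ p ∈ (hcf Q Y).toFinset, C = C * (({p : Nat.Primes | ((p : ℕ) : ℝ) ≤ Y ∧ Spl p ∧ Q p}.ncard : ℕ) : ℝ) := by
      rw [Finset.sum_const, Set.ncard_eq_toFinset_card _ (hcf Q Y)]
      simp [mul_comm]
    rw [← hs]
    refine le_trans (Finset.sum_le_sum fun p hp => ?_) ((hsm f Y).sum_le_tsum (hcf Q Y).toFinset fun p _ => ?_)
    · have h3 := (hcf Q Y).mem_toFinset.1 hp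
      rw [if_pos ⟨h3.1, h3.2.1⟩]
      exact h1 p h3.2.2
    · split_ifs
      · exact h2 p
      · exact le_rfl
  have hsmall : ∀ Y : ℝ, (∑' p : Nat.Primes, if ((p : ℕ) : ℝ) ≤ Y ∧ Spl p then max 0 (1 - ‖∑ i, α p i‖ ^ 2) else 0) ≤
      (({p : Nat.Primes | ((p : ℕ) : ℝ) ≤ Y ∧ Spl p ∧ ‖∑ i, α p i‖ < 1}.ncard : ℕ) : ℝ) := fun Y =>
    hcount (fun p => ‖∑ i, α p i‖ < 1) _ Y (fun p _ => max_le zero_le_one (by nlinarith [sq_nonneg ‖∑ i, α p i‖]))
      (fun p hp => max_le le_rfl (by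
        push Not at hp
        nlinarith))
  have htemp : n ≤ 3 → ∀ Y : ℝ, (({p : Nat.Primes | ((p : ℕ) : ℝ) ≤ Y ∧ Spl p ∧ ‖∑ i, α p i‖ < 1}.ncard : ℕ) : ℝ) ≤
      (({p : Nat.Primes | ((p : ℕ) : ℝ) ≤ Y ∧ Spl p ∧ ∀ i, ‖α p i‖ = 1}.ncard : ℕ) : ℝ) := fun hn3 Y => by
    refine Nat.cast_le.2 (Set.ncard_le_ncard (fun p hp => ?_) (hcf _ Y))
    exact ⟨hp.1, hp.2.1, tmp_of_small hn hn3 h hp.2.2⟩
  have hdef : n ≤ 3 → ∀ Y : ℝ, (∑' p : Nat.Primes, if ((p : ℕ) : ℝ) ≤ Y ∧ Spl p then ∑ i, (‖α p i‖ - 1) ^ 2 else 0) ≤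
      (∑' p : Nat.Primes, if ((p : ℕ) : ℝ) ≤ Y ∧ Spl p then max 0 (‖∑ i, α p i‖ ^ 2 - 1) else 0) := fun hn3 Y => by
    refine Summable.tsum_le_tsum (fun p => ?_) (hsm _ Y) (hsm _ Y)
    split_ifs
    · by_cases ht : ∀ i, ‖α p i‖ = 1
      · have : ∑ i, (‖α p i‖ - 1) ^ 2 = 0 := Finset.sum_eq_zero fun i _ => by rw [ht i]; norm_num
        rw [this]
        exact le_max_left _ _
      · exact (defect23 hn hn3 (h.ne_zero p) (h.unitary p) ht).trans (le_max_right _ _)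
    · exact le_rfl
  have key : ∀ ε : ℝ, 0 < ε → ∀ᶠ Y : ℝ in atTop,
      (∑' p : Nat.Primes, if ((p : ℕ) : ℝ) ≤ Y ∧ Spl p then max 0 (‖∑ i, α p i‖ ^ 2 - 1) else 0) ≤
      Y ^ ε * ((∑' p : Nat.Primes, if ((p : ℕ) : ℝ) ≤ Y ^ (1 + ε) ∧ Spl p then max 0 (1 - ‖∑ i, α p i‖ ^ 2) else 0) +
        Y ^ c) := fun ε hε => Pool.Agent.R314.SX.spl_bal h hc2 hz' hε
  refine ⟨key ε hε, fun B hB => ?_, fun hn3 => ?_, fun hviol => ?_⟩
  · filter_upwards [key ε hε, eventually_gt_atTop 0] with Y hY hY0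
    refine (hcount2 (fun p => B ≤ ‖∑ i, α p i‖) (fun p => max 0 (‖∑ i, α p i‖ ^ 2 - 1)) (B ^ 2 - 1) Y (fun p hp => ?_)
      (fun p => le_max_left _ _)).trans (hY.trans ?_)
    · refine le_trans ?_ (le_max_right _ _)
      nlinarith
    · exact mul_le_mul_of_nonneg_left (add_le_add (hsmall _) le_rfl) (by positivity)
  · filter_upwards [key ε hε, eventually_gt_atTop 0] with Y hY hY0
    refine (hdef hn3 Y).trans (hY.trans ?_)
    exact mul_le_mul_of_nonneg_left (add_le_add ((hsmall _).trans (htemp hn3 _)) le_rfl) (by positivity)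
  · have hwin := (Pool.Agent.R314.SX.spl_fin hc2 (Pool.Agent.R314.SX.spl_key (lam := 1) h hc2 hz' (by
      rcases hviol with h1 | h1
      · exact Or.inl h1
      · exact Or.inr (Or.inl h1)) one_pos)).2
    have hmain : ∀ᶠ Y : ℝ in atTop,
        (∑' p : Nat.Primes, if ((p : ℕ) : ℝ) ≤ Y ∧ Spl p then max 0 (‖∑ i, α p i‖ ^ 2 - 1) else 0) ≤
        Y ^ ε * (({p : Nat.Primes | ((p : ℕ) : ℝ) ≤ Y ^ (1 + ε) ∧ Spl p ∧ ‖∑ i, α p i‖ < 1}.ncard : ℕ) : ℝ) := by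
      have h2 : ∀ᶠ Y : ℝ in atTop, (2 : ℝ) ≤ Y ^ (ε / 2) :=
        (tendsto_rpow_atTop (y := ε / 2) (by positivity)).eventually_ge_atTop 2
      have h3 : Tendsto (fun Y : ℝ => Y ^ (1 + ε)) atTop atTop := tendsto_rpow_atTop (by linarith)
      filter_upwards [key (ε / 2) (by positivity), h2, h3.eventually hwin, eventually_ge_atTop 1] with Y a1 a2 a3 a4
      have hY0 : 0 < Y := by linarith
      set N : ℝ := (({p : Nat.Primes | ((p : ℕ) : ℝ) ≤ Y ^ (1 + ε) ∧ Spl p ∧ ‖∑ i, α p i‖ < 1}.ncard : ℕ) : ℝ) with hN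
      have b1 : (∑' p : Nat.Primes, if ((p : ℕ) : ℝ) ≤ Y ^ (1 + ε / 2) ∧ Spl p then
          max 0 (1 - ‖∑ i, α p i‖ ^ 2) else 0) ≤ N := by
        refine (hsmall _).trans (Nat.cast_le.2 (Set.ncard_le_ncard (fun p hp => ?_) (hcf _ _)))
        exact ⟨hp.1.trans (Real.rpow_le_rpow_of_exponent_le a4 (by linarith)), hp.2⟩
      have b2 : Y ^ c ≤ N := by
        have c1 : Y ^ c ≤ (Y ^ (1 + ε)) ^ c := by
          rw [← Real.rpow_mul hY0.le]
          exact Real.rpow_le_rpow_of_exponent_le a4 (by nlinarith)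
        refine (c1.trans a3).trans (Nat.cast_le.2 (Set.ncard_le_ncard (fun p hp => ?_) (hcf _ _)))
        exact ⟨hp.2.1, hp.2.2⟩
      have hN0 : 0 ≤ N := Nat.cast_nonneg _
      have hYe : Y ^ (ε / 2) * Y ^ (ε / 2) = Y ^ ε := by
        rw [← Real.rpow_add hY0]
        congr 1
        ring
      have hp : 0 < Y ^ (ε / 2) := by positivity
      calc _ ≤ Y ^ (ε / 2) * (_ + Y ^ c) := a1
        _ ≤ Y ^ (ε / 2) * (N + N) := mul_le_mul_of_nonneg_left (add_le_add b1 b2) hp.le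
        _ = Y ^ (ε / 2) * (2 * N) := by ring
        _ ≤ Y ^ (ε / 2) * (Y ^ (ε / 2) * N) :=
            mul_le_mul_of_nonneg_left (mul_le_mul_of_nonneg_right a2 hN0) hp.le
        _ = Y ^ ε * N := by rw [← mul_assoc, hYe]
    refine ⟨hmain, fun hn3 => ?_⟩
    filter_upwards [hmain, eventually_gt_atTop 0] with Y hY hY0
    refine (hdef hn3 Y).trans (hY.trans ?_)
    exact mul_le_mul_of_nonneg_left (htemp hn3 _) (by positivity)

end Pool.Agent.Results.MP_fa98d2_nt.ExcessSplitPrimes
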