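import Pool.Agent.R484.SJb

/-!
# Finite families of spherical cusp forms: one violation of the Ramanujan conjecture makes all eigenvalues small at
# many primes of every scale

Let `φ_g`, `g ∈ ι`, be finitely many spherical cusp forms on `PGL_{n_g}` over `ℚ` (`n_g ≥ 2` may depend on `g`), with
Satake parameters `α_{g,i,p}`, Langlands parameters `μ_{g,i}` and Hecke eigenvalues `λ_g(p) = ∑_i α_{g,i,p}`, and let
`e_g` be natural numbers. Let `X` be a group of Dirichlet characters modulo `q`; it belongs to an abelian number field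
`K`, and the primes `p` not dividing `q` with `χ(p) = 1` for all `χ ∈ X` are those which split completely in `K`. Let
`c ≥ 1/2` be such that no `L(s, χ)`, `χ ∈ X`, has a real zero `s` with `c < s < 1`; for the divisors `q` of `24` this is
not needed.

Suppose that one member `φ_f` of the family, `e_f ≠ 0`, violates the Ramanujan conjecture by more than `c / 2` at one
place. Then for every `δ > 0` and **all** large `Y`:

* the primes `p` in `[Y^{1-δ}, Y]` which split completely in `K` satisfy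
  `∑_p max(0, ∑_g e_g (1 - |λ_g(p)|²)) ≥ Y^c`, and `∑_g e_g |λ_g(p)|² < ∑_g e_g` for at least `Y^c` of them;
* at these primes the members `g` with `n_g = 2` and `∑_h e_h ≤ 4 e_g` are tempered. So for at most four forms on
  `PGL_2`, one of which violates the conjecture strongly, **all** are tempered simultaneously at `Y^c` primes of every
  scale.

Conversely one sequence of scales bounds the exponents of all the members of the family at all places: if fewer than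
`Y^c` split primes of `[Y^{1-δ}, Y]` satisfy `∑_g e_g |λ_g(p)|² < ∑_g e_g`, for some arbitrarily large `Y`, then
`|log_p |α_{g,i,p}|| ≤ c / 2` and `|Re μ_{g,i}| ≤ c / 2` for all `g` with `e_g ≠ 0`.
-/

set_option autoImplicit false

namespace Pool.Agent.Results.MP_fa98d2_nt.JointFamilies

open Pool.Agent.Y243.SP DirichletCharacter Filter

/-- the form with the parameters `α`, `μ` violates the Ramanujan conjecture by more than `c / 2` at some place -/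
def Violates {n : ℕ} (α : Nat.Primes → Fin n → ℂ) (μ : Fin n → ℂ) (c : ℝ) : Prop :=
  (∃ (p : Nat.Primes) (i : Fin n), c < 2 * |Real.logb ((p : ℕ) : ℝ) ‖α p i‖|) ∨ ∃ i, c < 2 * |(μ i).re|

/-- the primes in `[Y^(1-δ), Y]` with `χ(p) = 1` for all `χ ∈ X` and with the property `Q` -/
def splitPrimes {q : ℕ} (X : Subgroup (DirichletCharacter ℂ q)) (δ Y : ℝ) (Q : Nat.Primes → Prop) :
    Set Nat.Primes :=
  {p | Y ^ (1 - δ) ≤ ((p : ℕ) : ℝ) ∧ ((p : ℕ) : ℝ) ≤ Y ∧ (∀ χ ∈ X, χ ((p : ℕ) : ZMod q) = 1) ∧ Q p}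

open scoped Classical in
/-- **Joint theorem for finite families of spherical cusp forms.** -/
theorem result {ι : Type} [Fintype ι] {n : ι → ℕ} (α : ∀ g, Nat.Primes → Fin (n g) → ℂ)
    (μ : ∀ g, Fin (n g) → ℂ) (h : ∀ g, TwistedCuspForm (α g) (μ g)) (e : ι → ℕ)
    (q : ℕ) [NeZero q] (X : Subgroup (DirichletCharacter ℂ q)) {c : ℝ} (hc2 : 1 / 2 ≤ c)
    (hz : ¬ q ∣ 24 → ∀ χ ∈ X, ∀ σ : ℝ, c < σ → σ < 1 → LFunction χ σ ≠ 0) {δ : ℝ} (hδ : 0 < δ) :
    ((∃ f, e f ≠ 0 ∧ Violates (α f) (μ f) c) →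
      (∀ᶠ Y : ℝ in atTop, Y ^ c ≤ ∑' p : Nat.Primes,
        if Y ^ (1 - δ) ≤ ((p : ℕ) : ℝ) ∧ ((p : ℕ) : ℝ) ≤ Y ∧ ∀ χ ∈ X, χ ((p : ℕ) : ZMod q) = 1 then
          max 0 (∑ g, (e g : ℝ) * (1 - ‖∑ i, α g p i‖ ^ 2)) else 0) ∧
      (∀ᶠ Y : ℝ in atTop, Y ^ c ≤ ((splitPrimes X δ Y fun p =>
        ∑ g, (e g : ℝ) * ‖∑ i, α g p i‖ ^ 2 < ∑ g, (e g : ℝ) ∧
        ∀ g, n g = 2 → e g ≠ 0 → ∑ h, e h ≤ 4 * e g → ∀ i, ‖α g p i‖ = 1).ncard : ℝ))) ∧
    ((∃ᶠ Y : ℝ in atTop, ((splitPrimes X δ Y fun p =>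
        ∑ g, (e g : ℝ) * ‖∑ i, α g p i‖ ^ 2 < ∑ g, (e g : ℝ)).ncard : ℝ) < Y ^ c) →
      ∀ g, e g ≠ 0 → (∀ (p : Nat.Primes) (i : Fin (n g)), |Real.logb ((p : ℕ) : ℝ) ‖α g p i‖| ≤ c / 2) ∧
        ∀ i, |(μ g i).re| ≤ c / 2) := by
  have hz' : ∀ χ ∈ X, ∀ σ : ℝ, max c (1 / 2) < σ → σ < 1 → LFunction χ σ ≠ 0 := by
    intro χ hχ σ h1 h2
    by_cases hq : q ∣ 24
    · exact ne_of_dvd hq χ (by linarith [(le_max_right c (1 / 2)).trans_lt h1]) h2
    · exact hz hq χ hχ σ ((le_max_left _ _).trans_lt h1) h2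
  have hfin : ∀ Y : ℝ, {p : Nat.Primes | ((p : ℕ) : ℝ) ≤ Y}.Finite := fun Y =>
    (Pool.Agent.TH949.RES.primes_finite ⌊Y⌋₊).subset fun p hp => Nat.le_floor hp
  have key : (∃ f, e f ≠ 0 ∧ Violates (α f) (μ f) c) → _ := fun ⟨f, hf, hc⟩ =>
    Pool.Agent.R484.SJ.joint_fin (α := α) (X := X) hc2 hf
      (Pool.Agent.R484.SJ.joint_key (lam := δ) h hc2 hz' hf hc hδ)
  have htemp : ∀ p : Nat.Primes, ∑ g, (e g : ℝ) * ‖∑ i, α g p i‖ ^ 2 < ∑ g, (e g : ℝ) →
      ∀ g, n g = 2 → e g ≠ 0 → ∑ h, e h ≤ 4 * e g → ∀ i, ‖α g p i‖ = 1 := by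
    intro p hp g hn he hle
    have h1 : (e g : ℝ) * ‖∑ i, α g p i‖ ^ 2 ≤ ∑ g, (e g : ℝ) * ‖∑ i, α g p i‖ ^ 2 :=
      Finset.single_le_sum (f := fun g => (e g : ℝ) * ‖∑ i, α g p i‖ ^ 2) (fun g _ => by positivity)
        (Finset.mem_univ g)
    have h2 : (∑ g, (e g : ℝ)) ≤ 4 * e g := by exact_mod_cast hle
    have h3 : (0 : ℝ) < e g := by exact_mod_cast Nat.pos_of_ne_zero he
    have h4 : ‖∑ i, α g p i‖ < 2 := by
      have h5 : (e g : ℝ) * ‖∑ i, α g p i‖ ^ 2 < e g * 4 := by linarith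
      have h6 : ‖∑ i, α g p i‖ ^ 2 < 4 := lt_of_mul_lt_mul_left h5 h3.le
      nlinarith [norm_nonneg (∑ i, α g p i)]
    have key2 : ∀ (m : ℕ) (a : Fin m → ℂ), m = 2 → (∀ i, a i ≠ 0) →
        (∃ τ : Equiv.Perm (Fin m), ∀ i, a (τ i) = ((starRingEnd ℂ) (a i))⁻¹) → ‖∑ i, a i‖ < 2 →
        ∀ i, ‖a i‖ = 1 := by
      rintro m a rfl b1 b2 b3
      exact Pool.Agent.R484.SJ.tempered_two b1 b2 b3
    exact key2 (n g) (α g p) hn (fun i => (h g).ne_zero p i) ((h g).unitary p) h4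
  refine ⟨fun hc => ⟨(key hc).1, ?_⟩, fun hfr => ?_⟩
  · filter_upwards [(key hc).2] with Y hY
    refine hY.trans (Nat.cast_le.2 (Set.ncard_le_ncard ?_ ((hfin Y).subset fun p hp => hp.2.1)))
    rintro p ⟨a1, a2, a3, a4⟩
    exact ⟨a1, a2, a3, a4, htemp p a4⟩
  · have hno : ¬ ∃ f, e f ≠ 0 ∧ Violates (α f) (μ f) c := fun hc =>
      hfr ((key hc).2.mono fun Y hY => not_lt.2 hY)
    intro g hg
    refine ⟨fun p i => ?_, fun i => ?_⟩
    · by_contra hcon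
      push Not at hcon
      exact hno ⟨g, hg, Or.inl ⟨p, i, by linarith⟩⟩
    · by_contra hcon
      push Not at hcon
      exact hno ⟨g, hg, Or.inr ⟨i, by linarith⟩⟩

end Pool.Agent.Results.MP_fa98d2_nt.JointFamilies
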