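import Pool.Agent.R314.SX.Spl4

/-!
# Spherical cusp forms on `PGL_n`: violations of the Ramanujan conjecture and the primes which split completely in an
abelian number field, at every scale

Let `n ≥ 2`, let `φ` be a spherical cusp form on `PGL_n` over `ℚ`, with Satake parameters `α_{i,p}`, Langlands
parameters `μ_i` at the real place and Hecke eigenvalues `λ(p) = ∑_i α_{i,p}`. Let `X` be a group of Dirichlet
characters modulo `q`, and let `K` be the abelian number field which belongs to `X`: a prime `p` not dividing `q` splits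
completely in `K` iff `χ(p) = 1` for all `χ ∈ X` (for the group of all characters: iff `p ≡ 1 mod q`). Let `c ≥ 1/2` be
such that no `L(s, χ)`, `χ ∈ X`, has a real zero `s` with `c < s < 1`; for the divisors `q` of `24` this is proved here
for every `c`. Suppose that the form violates the Ramanujan conjecture by more than `c / 2` at some place:
`c < 2 |log_p |α_{i,p}||` for some `p` and `i` (possibly `p ∣ q`), or `c < 2 |Re μ_i|`, or that the function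
`∏_{χ ∈ X} L(s, (π ⊗ χ) × π~) / L(s, χ)` (without the Euler factors at the primes dividing `q`) has a zero or a pole of
real part `> c`. Then for every `δ > 0` and **all** large `Y` there are at least `Y^c` primes `p` in `[Y^{1-δ}, Y]` which
split completely in `K` and satisfy `|λ(p)| < 1`; moreover `∑ max(0, 1 - |λ(p)|²) ≥ Y^c` over these primes, and for
`n ≤ 3` the components `π_p` are tempered at these primes.

So: if, for a single abelian field `K`, the interval `[Y^{1-δ}, Y]` contains fewer than `Y^c` such primes for some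
arbitrarily large `Y`, then all the exponents of `φ`, at all places, are at most `c / 2`.

`TemperedSplitPrimes` proves the divergence of a series over the same primes, which gives such primes only for some
unspecified arbitrarily large `Y`; `EveryScale` is the case `K = ℚ`.
-/

set_option autoImplicit false

namespace Pool.Agent.Results.MP_fa98d2_nt.SplitPrimesEveryScale

open Pool.Agent.Y243.SP DirichletCharacter Filter

/-- `ρ` is a zero or a pole of `∏_{χ ∈ X} L(s, (π ⊗ χ) × π~) / L(s, χ)`, without the Euler factors at the primes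
dividing `q`. The logarithm of this function is `∑ |X| (|∑_i α_{i,p}^k|² - 1) / (k p^{ks})`, over the `p, k` with `p ∤ q`
and `χ(p)^k = 1` for all `χ ∈ X`. -/
def Singularity {n q : ℕ} (X : Subgroup (DirichletCharacter ℂ q)) (α : Nat.Primes → Fin n → ℂ) (ρ : ℂ) : Prop :=
  ∃ F : ℂ → ℂ, MeromorphicOn F Set.univ ∧
    (∀ s : ℂ, 1 < s.re → F s = Complex.exp (∑' x : Nat.Primes × ℕ, (((open scoped Classical in
      if ¬ (x.1 : ℕ) ∣ q ∧ ∀ χ ∈ X, χ ((x.1 : ℕ) : ZMod q) ^ (x.2 + 1) = 1 then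
        (Nat.card X : ℝ) * (‖∑ i, α x.1 i ^ (x.2 + 1)‖ ^ 2 - 1) / ((x.2 : ℝ) + 1) else 0) : ℝ) : ℂ) *
      (((x.1 : ℕ) : ℂ) ^ (-s)) ^ (x.2 + 1))) ∧
    meromorphicOrderAt F ρ ≠ 0

theorem card_eq {q : ℕ} [NeZero q] (X : Subgroup (DirichletCharacter ℂ q)) : ((XS X).card : ℝ) = (Nat.card X : ℝ) := by
  congr 1
  exact (Nat.subtype_card (XS X) fun χ => mem_XS).symm

open scoped Classical in
/-- **Violations of the Ramanujan conjecture and primes which split completely, at every scale.** -/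
theorem result {n : ℕ} (hn : 2 ≤ n) (α : Nat.Primes → Fin n → ℂ) (μ : Fin n → ℂ) (h : TwistedCuspForm α μ)
    (q : ℕ) [NeZero q] (X : Subgroup (DirichletCharacter ℂ q)) {c : ℝ} (hc2 : 1 / 2 ≤ c)
    (hz : ¬ q ∣ 24 → ∀ χ ∈ X, ∀ σ : ℝ, c < σ → σ < 1 → LFunction χ σ ≠ 0) {δ : ℝ} (hδ : 0 < δ) :
    (((∃ (p : Nat.Primes) (i : Fin n), c < 2 * |Real.logb ((p : ℕ) : ℝ) ‖α p i‖|) ∨ (∃ i, c < 2 * |(μ i).re|) ∨
      (∃ ρ : ℂ, c < ρ.re ∧ Singularity X α ρ)) →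
      (∀ᶠ Y : ℝ in atTop, Y ^ c ≤ ∑' p : Nat.Primes,
        if Y ^ (1 - δ) ≤ ((p : ℕ) : ℝ) ∧ ((p : ℕ) : ℝ) ≤ Y ∧ ∀ χ ∈ X, χ ((p : ℕ) : ZMod q) = 1 then
          max 0 (1 - ‖∑ i, α p i‖ ^ 2) else 0) ∧
      (∀ᶠ Y : ℝ in atTop, Y ^ c ≤ (({p : Nat.Primes | Y ^ (1 - δ) ≤ ((p : ℕ) : ℝ) ∧ ((p : ℕ) : ℝ) ≤ Y ∧
        (∀ χ ∈ X, χ ((p : ℕ) : ZMod q) = 1) ∧ ‖∑ i, α p i‖ < 1}.ncard : ℕ) : ℝ)) ∧
      (n ≤ 3 → ∀ᶠ Y : ℝ in atTop, Y ^ c ≤ (({p : Nat.Primes | Y ^ (1 - δ) ≤ ((p : ℕ) : ℝ) ∧ ((p : ℕ) : ℝ) ≤ Y ∧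
        (∀ χ ∈ X, χ ((p : ℕ) : ZMod q) = 1) ∧ ∀ i, ‖α p i‖ = 1}.ncard : ℕ) : ℝ))) ∧
    ((∃ᶠ Y : ℝ in atTop, (({p : Nat.Primes | Y ^ (1 - δ) ≤ ((p : ℕ) : ℝ) ∧ ((p : ℕ) : ℝ) ≤ Y ∧
        (∀ χ ∈ X, χ ((p : ℕ) : ZMod q) = 1) ∧ ‖∑ i, α p i‖ < 1}.ncard : ℕ) : ℝ) < Y ^ c) →
      (∀ (p : Nat.Primes) (i : Fin n), |Real.logb ((p : ℕ) : ℝ) ‖α p i‖| ≤ c / 2) ∧ (∀ i, |(μ i).re| ≤ c / 2) ∧
      ∀ ρ : ℂ, Singularity X α ρ → ρ.re ≤ c) := by
  have hz' : ∀ χ ∈ X, ∀ σ : ℝ, max c (1 / 2) < σ → σ < 1 → LFunction χ σ ≠ 0 := by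
    intro χ hχ σ h1 h2
    by_cases hq : q ∣ 24
    · exact ne_of_dvd hq χ (by linarith [(le_max_right c (1 / 2)).trans_lt h1]) h2
    · exact hz hq χ hχ σ ((le_max_left _ _).trans_lt h1) h2
  have hfin : ∀ Y : ℝ, {p : Nat.Primes | ((p : ℕ) : ℝ) ≤ Y}.Finite := fun Y =>
    (Pool.Agent.TH949.RES.primes_finite ⌊Y⌋₊).subset fun p hp => Nat.le_floor hp
  have key : ((∃ (p : Nat.Primes) (i : Fin n), c < 2 * |Real.logb ((p : ℕ) : ℝ) ‖α p i‖|) ∨
      (∃ i, c < 2 * |(μ i).re|) ∨ (∃ ρ : ℂ, c < ρ.re ∧ Singularity X α ρ)) → _ := fun hc =>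
    Pool.Agent.R314.SX.spl_fin hc2 (Pool.Agent.R314.SX.spl_key (lam := δ) h hc2 hz' (by
      rcases hc with hc | hc | ⟨ρ, h1, F, h2, h3, h4⟩
      · exact Or.inl hc
      · exact Or.inr (Or.inl hc)
      · refine Or.inr (Or.inr ⟨F, ρ, h2, fun s hs => ?_, h1, h4⟩)
        rw [h3 s hs, Pool.Agent.R314.SX.spl_sing_iff, card_eq]) hδ)
  refine ⟨fun hc => ⟨(key hc).1, (key hc).2, fun hn3 => ?_⟩, fun hfr => ?_⟩
  · filter_upwards [(key hc).2] with Y hY
    refine hY.trans (Nat.cast_le.2 (Set.ncard_le_ncard ?_ ((hfin Y).subset fun p hp => hp.2.1)))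
    rintro p ⟨a1, a2, a3, a4⟩
    exact ⟨a1, a2, a3, tmp_of_small hn hn3 h a4⟩
  · have hno : ¬ ((∃ (p : Nat.Primes) (i : Fin n), c < 2 * |Real.logb ((p : ℕ) : ℝ) ‖α p i‖|) ∨
        (∃ i, c < 2 * |(μ i).re|) ∨ (∃ ρ : ℂ, c < ρ.re ∧ Singularity X α ρ)) := fun hc =>
      hfr ((key hc).2.mono fun Y hY => not_lt.2 hY)
    refine ⟨fun p i => ?_, fun i => ?_, fun ρ hρ => ?_⟩
    · by_contra hcon
      push Not at hcon
      exact hno (Or.inl ⟨p, i, by linarith⟩)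
    · by_contra hcon
      push Not at hcon
      exact hno (Or.inr (Or.inl ⟨i, by linarith⟩))
    · by_contra hcon
      push Not at hcon
      exact hno (Or.inr (Or.inr ⟨ρ, hcon, hρ⟩))

end Pool.Agent.Results.MP_fa98d2_nt.SplitPrimesEveryScale
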